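import Mathlib

/-!
# Matrix spaces with the largest row norm

`Amb k ι`: the `k × ι` real matrices with the largest `ℓ¹` norm of a row as norm. General facts
about projections of the form `x ↦ x - f x • v` on subspaces of `Amb k ι`.
-/

set_option autoImplicit false

namespace Pool.Agent.Helper18_Proj

/-- The `k × ι` real matrices, with the largest `ℓ¹` norm of a row as norm. -/
abbrev Amb (k : ℕ) (ι : Type) [Fintype ι] : Type := Fin k → PiLp 1 (fun _ : ι => ℝ)

variable {k : ℕ} {ι : Type} [Fintype ι]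

/-- The matrix with given entries. -/
def mk (a : Fin k → ι → ℝ) : Amb k ι := fun i => WithLp.toLp 1 (a i)

@[simp] lemma mk_apply (a : Fin k → ι → ℝ) (i : Fin k) (l : ι) : mk a i l = a i l := rfl

lemma ext_entries {A B : Amb k ι} (h : ∀ i l, A i l = B i l) : A = B := by
  funext i
  exact PiLp.ext (h i)

lemma norm_le_of {A : Amb k ι} {c : ℝ} (hc : 0 ≤ c) (h : ∀ i, ∑ l, |A i l| ≤ c) : ‖A‖ ≤ c := by
  rw [pi_norm_le_iff_of_nonneg hc]
  intro i
  rw [PiLp.norm_eq_of_L1]
  simpa [Real.norm_eq_abs] using h i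

lemma row_le (A : Amb k ι) (i : Fin k) : ∑ l, |A i l| ≤ ‖A‖ := by
  have h := norm_le_pi_norm A i
  rw [PiLp.norm_eq_of_L1] at h
  simpa [Real.norm_eq_abs] using h

/-- The basic inequality: if row `i` of `g` takes the value `-1` at the sign vector `y`, then
`f g` times the value of row `i` of `v` at `y` is at most `‖P‖ - 1`. -/
lemma basic {X : Submodule ℝ (Amb k ι)} (P : X →L[ℝ] X) (v : X) (f : X →ₗ[ℝ] ℝ)
    (hP : ∀ x, P x = x - f x • v) (g : X) (hg : ‖g‖ ≤ 1) (i : Fin k) (y : ι → ℝ)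
    (hy : ∀ l, |y l| ≤ 1) (h1 : ∑ l, y l * (g : Amb k ι) i l = -1) :
    f g * (∑ l, y l * (v : Amb k ι) i l) ≤ ‖P‖ - 1 := by
  have e1 : ∑ l, y l * ((P g : X) : Amb k ι) i l =
      -1 - f g * ∑ l, y l * (v : Amb k ι) i l := by
    rw [hP, ← h1, Finset.mul_sum, ← Finset.sum_sub_distrib]
    refine Finset.sum_congr rfl fun l _ => ?_
    have : ((g - f g • v : X) : Amb k ι) i l = (g : Amb k ι) i l - f g * (v : Amb k ι) i l := by
      simp
    rw [this]; ring
  have e2 : |∑ l, y l * ((P g : X) : Amb k ι) i l| ≤ ‖P‖ := by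
    calc |∑ l, y l * ((P g : X) : Amb k ι) i l|
        ≤ ∑ l, |y l * ((P g : X) : Amb k ι) i l| := Finset.abs_sum_le_sum_abs _ _
      _ ≤ ∑ l, |((P g : X) : Amb k ι) i l| := by
          refine Finset.sum_le_sum fun l _ => ?_
          rw [abs_mul]
          exact mul_le_of_le_one_left (abs_nonneg _) (hy l)
      _ ≤ ‖((P g : X) : Amb k ι)‖ := row_le _ i
      _ = ‖P g‖ := rfl
      _ ≤ ‖P‖ * ‖g‖ := P.le_opNorm g
      _ ≤ ‖P‖ * 1 := mul_le_mul_of_nonneg_left hg P.opNorm_nonneg
      _ = ‖P‖ := mul_one _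
  rw [e1] at e2
  have := (abs_le.1 e2).1
  linarith

/-- A light column. -/
lemma exists_light {b : ℕ} (hb : 0 < b) (w : Fin b → ℝ) {N : ℝ} (h : ∑ t, |w t| ≤ N) :
    ∃ t, |w t| ≤ N / b := by
  by_contra hcon
  push Not at hcon
  have hne : (Finset.univ : Finset (Fin b)).Nonempty := ⟨⟨0, hb⟩, Finset.mem_univ _⟩
  have h2 : ∑ _t : Fin b, N / b < ∑ t, |w t| :=
    Finset.sum_lt_sum_of_nonempty hne fun t _ => hcon t
  rw [Finset.sum_const, Finset.card_univ, Fintype.card_fin, nsmul_eq_mul] at h2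
  have hb' : (0:ℝ) < b := by exact_mod_cast hb
  have h3 : (b:ℝ) * (N / b) = N := by field_simp
  linarith

/-- The two one-sided estimates combined. -/
lemma combine {q p N w ε c b : ℝ} (hε : 0 ≤ ε) (hb : 2 ≤ b) (hN : 0 ≤ N)
    (hw : |w| ≤ N / b)
    (h1 : (c * q + p) * (N - |w| - w) ≤ ε) (h2 : (c * q - p) * (N - |w| + w) ≤ ε) :
    c * q * (N * (b - 2)) ≤ ε * (b - 1) := by
  have hb0 : 0 < b := by linarith
  have hwb : |w| * b ≤ N := by
    rw [le_div_iff₀ hb0] at hw
    exact hw
  have key : ∀ z m : ℝ, z * m ≤ ε → N * (b - 2) ≤ m * b → 0 ≤ m →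
      z * (N * (b - 2)) ≤ ε * b := by
    intro z m hz hm hm0
    rcases le_or_gt 0 z with hz0 | hz0
    · calc z * (N * (b - 2)) ≤ z * (m * b) := mul_le_mul_of_nonneg_left hm hz0
        _ = (z * m) * b := by ring
        _ ≤ ε * b := mul_le_mul_of_nonneg_right hz hb0.le
    · have : z * (N * (b - 2)) ≤ 0 :=
        mul_nonpos_of_nonpos_of_nonneg hz0.le (mul_nonneg hN (by linarith))
      have : 0 ≤ ε * b := mul_nonneg hε hb0.le
      linarith
  have hb2 : 0 ≤ b - 2 := by linarith
  rcases le_or_gt 0 w with hw0 | hw0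
  · rw [abs_of_nonneg hw0] at h1 h2 hwb
    have a1 := key (c * q + p) (N - w - w) h1 (by nlinarith) (by nlinarith)
    have a2 : (c * q - p) * (N * (b - 2)) ≤ ε * (b - 2) := by
      have : (c * q - p) * N ≤ ε := by
        have e : N - w + w = N := by ring
        rw [e] at h2; exact h2
      calc (c * q - p) * (N * (b - 2)) = ((c * q - p) * N) * (b - 2) := by ring
        _ ≤ ε * (b - 2) := mul_le_mul_of_nonneg_right this hb2
    nlinarith
  · rw [abs_of_neg hw0] at h1 h2 hwb
    have a1 := key (c * q - p) (N - -w + w) h2 (by nlinarith) (by nlinarith)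
    have a2 : (c * q + p) * (N * (b - 2)) ≤ ε * (b - 2) := by
      have : (c * q + p) * N ≤ ε := by
        have e : N - -w - w = N := by ring
        rw [e] at h1; exact h1
      calc (c * q + p) * (N * (b - 2)) = ((c * q + p) * N) * (b - 2) := by ring
        _ ≤ ε * (b - 2) := mul_le_mul_of_nonneg_right this hb2
    nlinarith

/-- The sign of a real number, `1` at `0`. -/
noncomputable def sg (x : ℝ) : ℝ := if 0 ≤ x then 1 else -1

lemma abs_sg (x : ℝ) : |sg x| ≤ 1 := by
  unfold sg; split_ifs <;> simp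

lemma sg_mul (x : ℝ) : sg x * x = |x| := by
  unfold sg; split_ifs with h
  · rw [abs_of_nonneg h, one_mul]
  · rw [abs_of_neg (not_le.1 h)]; ring

/-- The value of a row at the sign vector which agrees with the signs of the row except in column
`l`, where it is `-s`. -/
lemma flip_sum [DecidableEq ι] (w : ι → ℝ) (l : ι) (s : ℝ) :
    ∑ l', (if l' = l then -s else sg (w l')) * w l' = ∑ l', |w l'| - |w l| - s * w l := by
  have h1 : ∀ l', (if l' = l then -s else sg (w l')) * w l' =
      |w l'| + (if l' = l then - |w l| - s * w l else 0) := by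
    intro l'
    split_ifs with h
    · subst h; ring
    · rw [sg_mul]; ring
  rw [Finset.sum_congr rfl fun l' _ => h1 l', Finset.sum_add_distrib,
    Finset.sum_ite_eq' Finset.univ l]
  simp only [Finset.mem_univ, if_true]
  ring

omit [Fintype ι] in
lemma flip_abs [DecidableEq ι] (w : ι → ℝ) (l : ι) {s : ℝ} (hs : |s| ≤ 1) (l' : ι) :
    |(if l' = l then -s else sg (w l'))| ≤ 1 := by
  split_ifs
  · rwa [abs_neg]
  · exact abs_sg _

/-- A linear functional on a subspace of matrices in terms of entries. -/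
lemma exists_entries [DecidableEq ι] {X : Submodule ℝ (Amb k ι)} (f : X →ₗ[ℝ] ℝ) :
    ∃ F : Fin k → ι → ℝ, ∀ x : X, f x = ∑ l, ∑ i, (x : Amb k ι) i l * F i l := by
  obtain ⟨g, hg⟩ := LinearMap.exists_extend f
  refine ⟨fun i l => g (mk fun i' l' => if i' = i ∧ l' = l then 1 else 0), fun x => ?_⟩
  have hx : (x : Amb k ι) = ∑ l, ∑ i, ((x : Amb k ι) i l) •
      (mk fun i' l' => if i' = i ∧ l' = l then (1:ℝ) else 0 : Amb k ι) := by
    apply ext_entries
    intro i l
    simp [Finset.sum_apply, ite_and]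
  have h1 : f x = g (x : Amb k ι) := by
    rw [← hg]; rfl
  rw [h1]
  conv_lhs => rw [hx]
  rw [map_sum]
  refine Finset.sum_congr rfl fun l _ => ?_
  rw [map_sum]
  refine Finset.sum_congr rfl fun i _ => ?_
  rw [map_smul, smul_eq_mul]

end Pool.Agent.Helper18_Proj
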