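import Mathlib

/-!
# Minimal projections onto hyperplanes: definitions
-/

set_option autoImplicit false

namespace Pool.Agent.Helper18_Proj

open Module

/-- `P` is a projection of `X` onto `Y`: its range is `Y` and it is the identity on `Y`. -/
def IsProj {X : Type} [NormedAddCommGroup X] [NormedSpace ℝ X] (Y : Submodule ℝ X)
    (P : X →L[ℝ] X) : Prop :=
  LinearMap.range (P : X →ₗ[ℝ] X) = Y ∧ ∀ y ∈ Y, P y = y

/-- The relative projection constant of `Y` in `X`: the infimum of the operator norms of the
projections of `X` onto `Y`, as an element of `[0, ∞]`. -/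
noncomputable def relProjConst {X : Type} [NormedAddCommGroup X] [NormedSpace ℝ X]
    (Y : Submodule ℝ X) : ENNReal :=
  ⨅ (P : X →L[ℝ] X) (_ : IsProj Y P), ENNReal.ofReal ‖P‖

/-- The infimum of the relative projection constants of the hyperplanes of `X`. -/
noncomputable def minHyperplane (X : Type) [NormedAddCommGroup X] [NormedSpace ℝ X] : ENNReal :=
  ⨅ (Y : Submodule ℝ X) (_ : finrank ℝ Y + 1 = finrank ℝ X), relProjConst Y

/-- The number `ρ_n`: the supremum of `minHyperplane X` over all real normed spaces `X` of
dimension `n`. -/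
noncomputable def rho (n : ℕ) : ENNReal :=
  ⨆ (X : Type) (_ : NormedAddCommGroup X) (_ : NormedSpace ℝ X) (_ : FiniteDimensional ℝ X)
    (_ : finrank ℝ X = n), minHyperplane X

end Pool.Agent.Helper18_Proj
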