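import Pool.Agent.Helper18_Proj.Basic

/-!
# Four rows

`X4 e b`: the `4 × (e + b)` matrices all of whose column sums are `0` and whose last row vanishes in
the first `e` columns. Every projection onto a hyperplane has norm at least
`1 + (b - 2) / (3 (b - 1))`.
-/

set_option autoImplicit false

namespace Pool.Agent.Helper18_Proj

/-- The space `X4 e b`. -/
def X4 (e b : ℕ) : Submodule ℝ (Amb 4 (Fin e ⊕ Fin b)) where
  carrier := {A | (∀ l, ∑ i, A i l = 0) ∧ ∀ j, A 3 (Sum.inl j) = 0}
  zero_mem' := by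
    constructor
    · intro l; simp
    · intro j; simp
  add_mem' := by
    rintro A B ⟨hA1, hA2⟩ ⟨hB1, hB2⟩
    constructor
    · intro l
      have : ∑ i, (A + B) i l = ∑ i, A i l + ∑ i, B i l := by
        rw [← Finset.sum_add_distrib]; rfl
      rw [this, hA1, hB1, add_zero]
    · intro j
      have : (A + B) 3 (Sum.inl j) = A 3 (Sum.inl j) + B 3 (Sum.inl j) := rfl
      rw [this, hA2, hB2, add_zero]
  smul_mem' := by
    rintro c A ⟨hA1, hA2⟩
    constructor
    · intro l
      have : ∑ i, (c • A) i l = c * ∑ i, A i l := by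
        rw [Finset.mul_sum]; rfl
      rw [this, hA1, mul_zero]
    · intro j
      have : (c • A) 3 (Sum.inl j) = c * A 3 (Sum.inl j) := rfl
      rw [this, hA2, mul_zero]

variable {e b : ℕ}

/-- Row `j` may be nonzero in column `l`. -/
def Allowed (j : Fin 4) (l : Fin e ⊕ Fin b) : Prop := l.isLeft → j ≠ 3

lemma allowed_inr (j : Fin 4) (t : Fin b) : Allowed j (Sum.inr t : Fin e ⊕ Fin b) := by
  intro h; simp at h

/-- `+1` in row `j` and `-1` in row `k` of column `l`. -/
def D (j k : Fin 4) (l : Fin e ⊕ Fin b) (hj : Allowed j l) (hk : Allowed k l) : X4 e b :=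
  ⟨mk fun r l' => if l' = l then (if r = j then (1:ℝ) else 0) - (if r = k then 1 else 0) else 0, by
    constructor
    · intro l'
      simp only [mk_apply]
      split_ifs
      · rw [Finset.sum_sub_distrib]; simp
      · simp
    · intro t
      simp only [mk_apply]
      split_ifs with h1 h2 h3 h3
      · exact absurd h2.symm (hj (by rw [← h1]; rfl))
      · exact absurd h2.symm (hj (by rw [← h1]; rfl))
      · exact absurd h3.symm (hk (by rw [← h1]; rfl))
      · simp
      · rfl⟩

lemma D_apply (j k : Fin 4) (l : Fin e ⊕ Fin b) (hj : Allowed j l) (hk : Allowed k l)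
    (r : Fin 4) (l' : Fin e ⊕ Fin b) :
    ((D j k l hj hk : X4 e b) : Amb 4 (Fin e ⊕ Fin b)) r l' =
      if l' = l then (if r = j then (1:ℝ) else 0) - (if r = k then 1 else 0) else 0 := rfl

/-- The bound on the values of `f` at the elementary matrices. -/
lemma elem_bound (hb : 3 ≤ b) (P : X4 e b →L[ℝ] X4 e b) (v : X4 e b) (f : X4 e b →ₗ[ℝ] ℝ)
    (hP : ∀ x, P x = x - f x • v) (hε : 0 ≤ ‖P‖ - 1)
    {i h j k : Fin 4} (hih : i ≠ h) (hij : i ≠ j) (hik : i ≠ k) (hhj : h ≠ j) (hhk : h ≠ k)
    (hjk : j ≠ k) (l₀ : Fin e ⊕ Fin b) (aj : Allowed j l₀) (ak : Allowed k l₀) :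
    |f (D j k l₀ aj ak)| *
      ((∑ l, |(v : Amb 4 (Fin e ⊕ Fin b)) i l|) * ((b:ℝ) - 2)) ≤ (‖P‖ - 1) * ((b:ℝ) - 1) := by
  classical
  set w : Fin e ⊕ Fin b → ℝ := fun l => (v : Amb 4 (Fin e ⊕ Fin b)) i l with hw
  set N : ℝ := ∑ l, |w l| with hN
  have hN0 : 0 ≤ N := Finset.sum_nonneg fun _ _ => abs_nonneg _
  have hsum : ∑ t : Fin b, |w (Sum.inr t)| ≤ N := by
    rw [hN, Fintype.sum_sum_type]
    have : 0 ≤ ∑ t : Fin e, |w (Sum.inl t)| := Finset.sum_nonneg fun _ _ => abs_nonneg _
    linarith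
  obtain ⟨t, ht⟩ := exists_light (by omega : 0 < b) (fun t => w (Sum.inr t)) hsum
  set q : ℝ := f (D j k l₀ aj ak) with hq
  set p : ℝ := f (D i h (Sum.inr t) (allowed_inr _ _) (allowed_inr _ _)) with hp
  have test : ∀ τ s : ℝ, |τ| = 1 → (s = 1 ∨ s = -1) →
      (τ * q + s * p) * (N - |w (Sum.inr t)| - s * w (Sum.inr t)) ≤ ‖P‖ - 1 := by
    intro τ s hτ hs
    have hs1 : |s| = 1 := by rcases hs with rfl | rfl <;> simp
    have hss : s * s = 1 := by rcases hs with rfl | rfl <;> simp
    set g : X4 e b := τ • D j k l₀ aj ak +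
      s • D i h (Sum.inr t) (allowed_inr _ _) (allowed_inr _ _) with hg
    have hge : ∀ r l', (g : Amb 4 (Fin e ⊕ Fin b)) r l' =
        τ * (if l' = l₀ then (if r = j then (1:ℝ) else 0) - (if r = k then 1 else 0) else 0) +
        s * (if l' = Sum.inr t then (if r = i then (1:ℝ) else 0) - (if r = h then 1 else 0)
          else 0) := by
      intro r l'; rfl
    have hgn : ‖g‖ ≤ 1 := by
      have : ‖(g : Amb 4 (Fin e ⊕ Fin b))‖ ≤ 1 := by
        apply norm_le_of zero_le_one
        intro r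
        by_cases hr : r = j ∨ r = k
        · have h1 : r ≠ i ∧ r ≠ h := by
            rcases hr with rfl | rfl
            · exact ⟨hij.symm, hhj.symm⟩
            · exact ⟨hik.symm, hhk.symm⟩
          have h2 : ∀ l', |(g : Amb 4 (Fin e ⊕ Fin b)) r l'| = if l' = l₀ then 1 else 0 := by
            intro l'
            rw [hge, if_neg h1.1, if_neg h1.2]
            rcases hr with rfl | rfl
            · by_cases hl : l' = l₀ <;> simp [hl, hjk, hτ]
            · by_cases hl : l' = l₀ <;> simp [hl, hjk.symm, hτ]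
          rw [Finset.sum_congr rfl fun l' _ => h2 l']
          simp
        · push Not at hr
          have h2 : ∀ l', |(g : Amb 4 (Fin e ⊕ Fin b)) r l'| ≤
              if l' = Sum.inr t then 1 else 0 := by
            intro l'
            rw [hge, if_neg hr.1, if_neg hr.2]
            split_ifs with h3 h4 h5 h6 h7 h8 h9 <;> simp_all
          refine (Finset.sum_le_sum fun l' _ => h2 l').trans ?_
          simp
      exact this
    have h1 : ∑ l', (if l' = Sum.inr t then -s else sg (w l')) *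
        (g : Amb 4 (Fin e ⊕ Fin b)) i l' = -1 := by
      have h2 : ∀ l', (if l' = Sum.inr t then -s else sg (w l')) *
          (g : Amb 4 (Fin e ⊕ Fin b)) i l' = if l' = Sum.inr t then -1 else 0 := by
        intro l'
        rw [hge, if_neg hij, if_neg hik, if_pos rfl, if_neg hih]
        split_ifs <;> simp [hss]
      rw [Finset.sum_congr rfl fun l' _ => h2 l']
      simp
    have h3 := basic P v f hP g hgn i (fun l' => if l' = Sum.inr t then -s else sg (w l'))
      (fun l' => flip_abs w (Sum.inr t) hs1.le l') h1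
    have h4 := flip_sum w (Sum.inr t) s
    have h5 : f g = τ * q + s * p := by
      rw [hg, map_add, map_smul, map_smul, smul_eq_mul, smul_eq_mul]
    rw [h5] at h3
    rw [h4] at h3
    exact h3
  have hbR : (2:ℝ) ≤ b := by
    have : (3:ℝ) ≤ b := by exact_mod_cast hb
    linarith
  have fin : ∀ τ : ℝ, |τ| = 1 → τ * q * (N * ((b:ℝ) - 2)) ≤ (‖P‖ - 1) * ((b:ℝ) - 1) := by
    intro τ hτ
    refine combine (p := p) (w := w (Sum.inr t)) hε hbR hN0 ht ?_ ?_
    · have := test τ 1 hτ (Or.inl rfl)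
      simpa using this
    · have := test τ (-1) hτ (Or.inr rfl)
      have e1 : τ * q + -1 * p = τ * q - p := by ring
      have e2 : N - |w (Sum.inr t)| - -1 * w (Sum.inr t) =
        N - |w (Sum.inr t)| + w (Sum.inr t) := by ring
      rw [e1, e2] at this
      exact this
  rcases abs_cases q with ⟨h1, _⟩ | ⟨h1, _⟩
  · rw [h1]; have := fin 1 (by simp); rwa [one_mul] at this
  · rw [h1]
    have := fin (-1) (by simp)
    rwa [neg_one_mul] at this

/-- The contribution of a column, first form. -/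
lemma col1 {x1 x2 x3 x4 F1 F2 F3 F4 a b c : ℝ} (h0 : x1 + x2 + x3 + x4 = 0)
    (h2 : x2 = 0 ∨ |F2 - F1| ≤ a) (h3 : x3 = 0 ∨ |F3 - F1| ≤ b) (h4 : x4 = 0 ∨ |F4 - F1| ≤ c) :
    x1 * F1 + x2 * F2 + x3 * F3 + x4 * F4 ≤ |x2| * a + |x3| * b + |x4| * c := by
  have key : ∀ {x y z : ℝ}, (x = 0 ∨ |y| ≤ z) → x * y ≤ |x| * z := by
    intro x y z h
    rcases h with rfl | h
    · simp
    · calc x * y ≤ |x * y| := le_abs_self _
        _ = |x| * |y| := abs_mul _ _
        _ ≤ |x| * z := mul_le_mul_of_nonneg_left h (abs_nonneg _)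
  have e : x1 * F1 + x2 * F2 + x3 * F3 + x4 * F4 =
      x2 * (F2 - F1) + x3 * (F3 - F1) + x4 * (F4 - F1) := by
    have : x1 = -(x2 + x3 + x4) := by linarith
    rw [this]; ring
  rw [e]
  have := key h2
  have := key h3
  have := key h4
  linarith

lemma D_value {f : X4 e b →ₗ[ℝ] ℝ} {F : Fin 4 → Fin e ⊕ Fin b → ℝ}
    (hF : ∀ x : X4 e b, f x = ∑ l, ∑ i, (x : Amb 4 (Fin e ⊕ Fin b)) i l * F i l)
    (j k : Fin 4) (l : Fin e ⊕ Fin b) (hj : Allowed j l) (hk : Allowed k l) :
    f (D j k l hj hk) = F j l - F k l := by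
  rw [hF]
  have h1 : ∀ l', ∑ i, ((D j k l hj hk : X4 e b) : Amb 4 (Fin e ⊕ Fin b)) i l' * F i l' =
      if l' = l then F j l' - F k l' else 0 := by
    intro l'
    split_ifs with h
    · have : ∀ i, ((D j k l hj hk : X4 e b) : Amb 4 (Fin e ⊕ Fin b)) i l' * F i l' =
          (if i = j then F i l' else 0) - (if i = k then F i l' else 0) := by
        intro i
        rw [D_apply, if_pos h]
        split_ifs <;> ring
      rw [Finset.sum_congr rfl fun i _ => this i, Finset.sum_sub_distrib]
      simp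
    · refine Finset.sum_eq_zero fun i _ => ?_
      rw [D_apply, if_neg h, zero_mul]
  rw [Finset.sum_congr rfl fun l' _ => h1 l']
  simp

/-- Every projection of `X4 e b` onto a hyperplane has norm at least
`1 + (b - 2) / (3 (b - 1))`. -/
theorem four_bound (hb : 3 ≤ b) (P : X4 e b →L[ℝ] X4 e b) (v : X4 e b) (f : X4 e b →ₗ[ℝ] ℝ)
    (hP : ∀ x, P x = x - f x • v) (hfv : f v = 1) (hε : 0 ≤ ‖P‖ - 1) :
    1 + ((b:ℝ) - 2) / (3 * ((b:ℝ) - 1)) ≤ ‖P‖ := by
  classical
  have hbR : (3:ℝ) ≤ b := by exact_mod_cast hb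
  have hb2 : (0:ℝ) < b - 2 := by linarith
  have hb1 : (0:ℝ) < b - 1 := by linarith
  set V : Fin 4 → Fin e ⊕ Fin b → ℝ := fun i l => (v : Amb 4 (Fin e ⊕ Fin b)) i l with hV
  set n : Fin 4 → ℝ := fun i => ∑ l, |V i l| with hn
  have hn0 : ∀ i, 0 ≤ n i := fun i => Finset.sum_nonneg fun _ _ => abs_nonneg _
  obtain ⟨F, hF⟩ := exists_entries f
  set κ : ℝ := (‖P‖ - 1) * ((b:ℝ) - 1) / ((b:ℝ) - 2) with hκ
  have hκ0 : 0 ≤ κ := by positivity
  -- the elementary bounds
  have H : ∀ {i h j k : Fin 4}, i ≠ h → i ≠ j → i ≠ k → h ≠ j → h ≠ k → j ≠ k →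
      ∀ l : Fin e ⊕ Fin b, Allowed j l → Allowed k l → 0 < n i → |F j l - F k l| ≤ κ / n i := by
    intro i h j k hih hij hik hhj hhk hjk l aj ak hni
    have h1 := elem_bound hb P v f hP hε hih hij hik hhj hhk hjk l aj ak
    rw [D_value hF] at h1
    rw [le_div_iff₀ hni, hκ, le_div_iff₀ hb2, mul_assoc]
    exact h1
  -- the rows in decreasing order
  have hmono := Tuple.monotone_sort n
  set σ : Equiv.Perm (Fin 4) := Tuple.sort n with hσ
  set r1 := σ 3 with hr1
  set r2 := σ 2 with hr2
  set r3 := σ 1 with hr3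
  set r4 := σ 0 with hr4
  have h12 : n r2 ≤ n r1 := hmono (by decide : (2 : Fin 4) ≤ 3)
  have h23 : n r3 ≤ n r2 := hmono (by decide : (1 : Fin 4) ≤ 2)
  have h34 : n r4 ≤ n r3 := hmono (by decide : (0 : Fin 4) ≤ 1)
  have d12 : r1 ≠ r2 := fun h => absurd (σ.injective h) (by decide)
  have d13 : r1 ≠ r3 := fun h => absurd (σ.injective h) (by decide)
  have d14 : r1 ≠ r4 := fun h => absurd (σ.injective h) (by decide)
  have d23 : r2 ≠ r3 := fun h => absurd (σ.injective h) (by decide)
  have d24 : r2 ≠ r4 := fun h => absurd (σ.injective h) (by decide)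
  have d34 : r3 ≠ r4 := fun h => absurd (σ.injective h) (by decide)
  have sum4 : ∀ G : Fin 4 → ℝ, ∑ i, G i = G r1 + G r2 + G r3 + G r4 := by
    intro G
    rw [← Equiv.sum_comp σ G, Fin.sum_univ_four]
    ring
  have cases4 : ∀ i : Fin 4, i = r1 ∨ i = r2 ∨ i = r3 ∨ i = r4 := by
    intro i
    obtain ⟨j, rfl⟩ := σ.surjective i
    fin_cases j
    · exact Or.inr (Or.inr (Or.inr rfl))
    · exact Or.inr (Or.inr (Or.inl rfl))
    · exact Or.inr (Or.inl rfl)
    · exact Or.inl rfl
  have hcol : ∀ l, V r1 l + V r2 l + V r3 l + V r4 l = 0 := by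
    intro l
    rw [← sum4 fun i => V i l]
    exact v.2.1 l
  have hzero : ∀ i, n i = 0 → ∀ l, V i l = 0 := by
    intro i hi l
    have := (Finset.sum_eq_zero_iff_of_nonneg (fun l _ => abs_nonneg (V i l))).1 hi l
      (Finset.mem_univ l)
    exact abs_eq_zero.1 this
  have hn2 : 0 < n r2 := by
    rcases (hn0 r2).lt_or_eq with h | h
    · exact h
    · exfalso
      have z2 := hzero r2 h.symm
      have z3 := hzero r3 (le_antisymm (h ▸ h23) (hn0 _))
      have z4 := hzero r4 (le_antisymm ((h34.trans h23).trans_eq h.symm) (hn0 _))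
      have z1 : ∀ l, V r1 l = 0 := fun l => by
        have := hcol l
        rw [z2 l, z3 l, z4 l] at this
        linarith
      have : f v = 0 := by
        rw [hF]
        refine Finset.sum_eq_zero fun l _ => Finset.sum_eq_zero fun i _ => ?_
        have : (v : Amb 4 (Fin e ⊕ Fin b)) i l = 0 := by
          rcases cases4 i with rfl | rfl | rfl | rfl
          · exact z1 l
          · exact z2 l
          · exact z3 l
          · exact z4 l
        rw [this, zero_mul]
      rw [hfv] at this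
      exact one_ne_zero this
  have hn1 : 0 < n r1 := lt_of_lt_of_le hn2 h12
  have hk12 : κ / n r1 ≤ κ / n r2 := div_le_div_of_nonneg_left hκ0 hn2 h12
  -- the constant for the difference of the first two rows
  obtain ⟨c2, hc20, hc2, hc2s⟩ : ∃ c2 : ℝ, 0 ≤ c2 ∧
      (∀ l : Fin e ⊕ Fin b, Allowed r1 l → Allowed r2 l → |F r2 l - F r1 l| ≤ κ * c2) ∧
      c2 * n r2 + (n r3 + n r4) / n r2 ≤ 3 := by
    by_cases hA : n r2 ≤ 2 * n r3
    · have hn3 : 0 < n r3 := by linarith
      refine ⟨1 / n r3, by positivity, ?_, ?_⟩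
      · intro l a1 a2
        have := H (i := r3) (h := r4) (j := r2) (k := r1) d34 d23.symm d13.symm d24.symm d14.symm
          d12.symm l a2 a1 hn3
        rwa [mul_one_div]
      · have e1 : 1 / n r3 * n r2 + (n r3 + n r4) / n r2 =
            (n r2 * n r2 + (n r3 + n r4) * n r3) / (n r3 * n r2) := by
          field_simp
        rw [e1, div_le_iff₀ (by positivity)]
        nlinarith [mul_nonneg (sub_nonneg.2 h23) (sub_nonneg.2 hA),
          mul_nonneg hn3.le (sub_nonneg.2 h34)]
    · push Not at hA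
      refine ⟨1 / n r1 + 1 / n r2, by positivity, ?_, ?_⟩
      · intro l a1 a2
        have ex : ∃ r r' : Fin 4, r ≠ r' ∧ r1 ≠ r ∧ r1 ≠ r' ∧ r2 ≠ r ∧ r2 ≠ r' ∧ Allowed r l := by
          by_cases h3 : Allowed r3 l
          · exact ⟨r3, r4, d34, d13, d14, d23, d24, h3⟩
          · refine ⟨r4, r3, d34.symm, d14, d13, d24, d23, ?_⟩
            intro hl h4
            apply h3
            intro _ h5
            exact d34 (h5.trans h4.symm)
        obtain ⟨r, r', hrr, h1r, h1r', h2r, h2r', ar⟩ := ex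
        have t1 := H (i := r1) (h := r') (j := r2) (k := r) h1r' d12 h1r h2r'.symm hrr.symm h2r
          l a2 ar hn1
        have t2 := H (i := r2) (h := r') (j := r) (k := r1) h2r' h2r d12.symm hrr.symm h1r'.symm
          h1r.symm l ar a1 hn2
        calc |F r2 l - F r1 l| = |(F r2 l - F r l) + (F r l - F r1 l)| := by ring_nf
          _ ≤ |F r2 l - F r l| + |F r l - F r1 l| := abs_add_le _ _
          _ ≤ κ / n r1 + κ / n r2 := add_le_add t1 t2
          _ = κ * (1 / n r1 + 1 / n r2) := by ring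
      · have e1 : (1 / n r1 + 1 / n r2) * n r2 = n r2 / n r1 + 1 := by
          field_simp
        have e2 : n r2 / n r1 ≤ 1 := (div_le_one hn1).2 h12
        have e3 : (n r3 + n r4) / n r2 ≤ 1 := by
          rw [div_le_one hn2]
          linarith
        rw [e1]
        linarith
  -- the contribution of a column
  have colb : ∀ l, ∑ i, V i l * F i l ≤
      |V r2 l| * (κ * c2) + |V r3 l| * (κ / n r2) + |V r4 l| * (κ / n r2) := by
    intro l
    rw [sum4 fun i => V i l * F i l]
    have h0 := hcol l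
    -- all rows but the fourth are allowed everywhere, and that row vanishes where it is not
    have zall : ∀ i, ¬ Allowed i l → V i l = 0 := by
      intro i hi
      unfold Allowed at hi
      push Not at hi
      obtain ⟨hl, rfl⟩ := hi
      cases l with
      | inl t => exact v.2.2 t
      | inr t => simp at hl
    have uniq : ∀ i j, i ≠ j → ¬ Allowed i l → Allowed j l := by
      intro i j hij hi _ hj
      unfold Allowed at hi
      push Not at hi
      exact hij (hi.2.trans hj.symm)
    by_cases a1 : Allowed r1 l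
    · refine col1 h0 ?_ ?_ ?_
      · by_cases a2 : Allowed r2 l
        · exact Or.inr (hc2 l a1 a2)
        · exact Or.inl (zall _ a2)
      · by_cases a3 : Allowed r3 l
        · exact Or.inr (H (i := r2) (h := r4) d24 d23 d12.symm d34.symm d14.symm d13.symm
            l a3 a1 hn2)
        · exact Or.inl (zall _ a3)
      · by_cases a4 : Allowed r4 l
        · exact Or.inr (H (i := r2) (h := r3) d23 d24 d12.symm d34 d13.symm d14.symm
            l a4 a1 hn2)
        · exact Or.inl (zall _ a4)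
    · have z1 := zall _ a1
      have a2 := uniq _ _ d12 a1
      have a3 := uniq _ _ d13 a1
      have a4 := uniq _ _ d14 a1
      have h0' : V r2 l + V r1 l + V r3 l + V r4 l = 0 := by linarith
      have t3 := H (i := r1) (h := r4) d14 d13 d12 d34.symm d24.symm d23.symm l a3 a2 hn1
      have t4 := H (i := r1) (h := r3) d13 d14 d12 d34 d23.symm d24.symm l a4 a2 hn1
      have := col1 (a := 0) (F1 := F r2 l) (F2 := F r1 l) (F3 := F r3 l) (F4 := F r4 l) h0'
        (Or.inl z1) (Or.inr (t3.trans hk12)) (Or.inr (t4.trans hk12))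
      rw [z1] at this ⊢
      have : 0 ≤ |V r2 l| * (κ * c2) := by positivity
      simp only [zero_mul, add_zero, abs_zero, zero_add] at *
      linarith
  -- summation
  have total : 1 ≤ κ * 3 := by
    calc (1:ℝ) = f v := hfv.symm
      _ = ∑ l, ∑ i, V i l * F i l := hF v
      _ ≤ ∑ l, (|V r2 l| * (κ * c2) + |V r3 l| * (κ / n r2) + |V r4 l| * (κ / n r2)) :=
          Finset.sum_le_sum fun l _ => colb l
      _ = n r2 * (κ * c2) + n r3 * (κ / n r2) + n r4 * (κ / n r2) := by
          rw [Finset.sum_add_distrib, Finset.sum_add_distrib, ← Finset.sum_mul, ← Finset.sum_mul,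
            ← Finset.sum_mul]
      _ = κ * (c2 * n r2 + (n r3 + n r4) / n r2) := by ring
      _ ≤ κ * 3 := mul_le_mul_of_nonneg_left hc2s hκ0
  have h1 : 1 / 3 ≤ κ := by linarith
  rw [hκ, le_div_iff₀ hb2] at h1
  have h2 : ((b:ℝ) - 2) / (3 * ((b:ℝ) - 1)) ≤ ‖P‖ - 1 := by
    rw [div_le_iff₀ (by positivity)]
    linarith
  linarith

end Pool.Agent.Helper18_Proj
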