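import Pool.Agent.Helper18_Proj.Basic

/-!
# Three rows

`X3 K`: the `3 × K` matrices all of whose column sums are `0`. Every projection onto a hyperplane
has norm at least `1 + (K - 2) / (5 (K - 1))`.
-/

set_option autoImplicit false

namespace Pool.Agent.Helper18_Proj

/-- The space `X3 K`. -/
def X3 (K : ℕ) : Submodule ℝ (Amb 3 (Fin K)) where
  carrier := {A | ∀ l, ∑ i, A i l = 0}
  zero_mem' := by intro l; simp
  add_mem' := by
    intro A B hA hB l
    have : ∑ i, (A + B) i l = ∑ i, A i l + ∑ i, B i l := by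
      rw [← Finset.sum_add_distrib]; rfl
    rw [this, hA, hB, add_zero]
  smul_mem' := by
    intro c A hA l
    have : ∑ i, (c • A) i l = c * ∑ i, A i l := by
      rw [Finset.mul_sum]; rfl
    rw [this, hA, mul_zero]

variable {K : ℕ}

/-- The column `l` with entries `c`, where the sum of `c` is `0`. -/
def C3 (c : Fin 3 → ℝ) (hc : ∑ i, c i = 0) (l : Fin K) : X3 K :=
  ⟨mk fun r l' => if l' = l then c r else 0, by
    intro l'
    simp only [mk_apply]
    split_ifs
    · exact hc
    · simp⟩

lemma C3_apply (c : Fin 3 → ℝ) (hc : ∑ i, c i = 0) (l : Fin K) (r : Fin 3) (l' : Fin K) :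
    ((C3 c hc l : X3 K) : Amb 3 (Fin K)) r l' = if l' = l then c r else 0 := rfl

lemma sum_d3 (j k : Fin 3) :
    ∑ r, ((if r = j then (1:ℝ) else 0) - (if r = k then 1 else 0)) = 0 := by
  rw [Finset.sum_sub_distrib]; simp

/-- `+1` in row `j` and `-1` in row `k` of column `l`. -/
def D3 (j k : Fin 3) (l : Fin K) : X3 K :=
  C3 (fun r => (if r = j then (1:ℝ) else 0) - (if r = k then 1 else 0)) (sum_d3 j k) l

lemma sum_w3 (i : Fin 3) : ∑ r, ((if r = i then (3/2:ℝ) else 0) - 1/2) = 0 := by
  rw [Finset.sum_sub_distrib]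
  simp
  norm_num

/-- `1` in row `i` and `-1/2` in the other two rows of column `l`. -/
noncomputable def W3 (i : Fin 3) (l : Fin K) : X3 K :=
  C3 (fun r => (if r = i then (3/2:ℝ) else 0) - 1/2) (sum_w3 i) l

/-- The bound on the values of `f` at the elementary matrices. -/
lemma elem_bound3 (hb : 3 ≤ K) (P : X3 K →L[ℝ] X3 K) (v : X3 K) (f : X3 K →ₗ[ℝ] ℝ)
    (hP : ∀ x, P x = x - f x • v) (hε : 0 ≤ ‖P‖ - 1)
    {i j k : Fin 3} (hij : i ≠ j) (hik : i ≠ k) (_hjk : j ≠ k) (l₀ : Fin K) :
    |f (D3 j k l₀)| *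
      ((∑ l, |(v : Amb 3 (Fin K)) i l|) * ((K:ℝ) - 2)) ≤ 2 * (‖P‖ - 1) * ((K:ℝ) - 1) := by
  classical
  set w : Fin K → ℝ := fun l => (v : Amb 3 (Fin K)) i l with hw
  set N : ℝ := ∑ l, |w l| with hN
  have hN0 : 0 ≤ N := Finset.sum_nonneg fun _ _ => abs_nonneg _
  obtain ⟨t, ht⟩ := exists_light (by omega : 0 < K) w (le_refl N)
  set q : ℝ := f (D3 j k l₀) with hq
  set p : ℝ := f (W3 i t) with hp
  have test : ∀ τ s : ℝ, |τ| = 1 → (s = 1 ∨ s = -1) →
      (τ / 2 * q + s * p) * (N - |w t| - s * w t) ≤ ‖P‖ - 1 := by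
    intro τ s hτ hs
    have hs1 : |s| = 1 := by rcases hs with rfl | rfl <;> simp
    have hss : s * s = 1 := by rcases hs with rfl | rfl <;> simp
    set g : X3 K := (τ / 2) • D3 j k l₀ + s • W3 i t with hg
    have hge : ∀ r l', (g : Amb 3 (Fin K)) r l' =
        τ / 2 * (if l' = l₀ then (if r = j then (1:ℝ) else 0) - (if r = k then 1 else 0) else 0) +
        s * (if l' = t then (if r = i then (3/2:ℝ) else 0) - 1/2 else 0) := by
      intro r l'; rfl
    have hgn : ‖g‖ ≤ 1 := by
      have : ‖(g : Amb 3 (Fin K))‖ ≤ 1 := by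
        apply norm_le_of zero_le_one
        intro r
        by_cases hr : r = i
        · subst hr
          have h2 : ∀ l', |(g : Amb 3 (Fin K)) r l'| = if l' = t then 1 else 0 := by
            intro l'
            rw [hge, if_neg hij, if_neg hik, if_pos rfl]
            by_cases hl : l' = t
            · simp only [hl, if_true]
              have : s * ((3/2:ℝ) - 1/2) = s := by ring
              rw [this]
              simp [hs1]
            · simp [hl]
          rw [Finset.sum_congr rfl fun l' _ => h2 l']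
          simp
        · have h2 : ∀ l', |(g : Amb 3 (Fin K)) r l'| ≤
              (if l' = l₀ then 1/2 else 0) + (if l' = t then 1/2 else 0) := by
            intro l'
            rw [hge, if_neg hr]
            refine (abs_add_le _ _).trans (add_le_add ?_ ?_)
            · rw [abs_mul, abs_div, hτ]
              by_cases hl : l' = l₀
              · simp only [hl, if_true]
                have : |(if r = j then (1:ℝ) else 0) - (if r = k then 1 else 0)| ≤ 1 := by
                  split_ifs <;> simp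
                norm_num
                linarith
              · simp [hl]
            · rw [abs_mul, hs1]
              by_cases hl : l' = t
              · simp only [hl, if_true]
                norm_num
              · simp [hl]
          refine (Finset.sum_le_sum fun l' _ => h2 l').trans ?_
          rw [Finset.sum_add_distrib]
          simp
          norm_num
      exact this
    have h1 : ∑ l', (if l' = t then -s else sg (w l')) *
        (g : Amb 3 (Fin K)) i l' = -1 := by
      have h2 : ∀ l', (if l' = t then -s else sg (w l')) *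
          (g : Amb 3 (Fin K)) i l' = if l' = t then -1 else 0 := by
        intro l'
        rw [hge, if_neg hij, if_neg hik, if_pos rfl]
        by_cases hl : l' = t
        · simp only [hl, if_true, sub_self, ite_self, mul_zero, zero_add]
          have : -s * (s * ((3/2:ℝ) - 1/2)) = -(s * s) := by ring
          rw [this, hss]
        · simp [hl]
      rw [Finset.sum_congr rfl fun l' _ => h2 l']
      simp
    have h3 := basic P v f hP g hgn i (fun l' => if l' = t then -s else sg (w l'))
      (fun l' => flip_abs w t hs1.le l') h1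
    have h4 := flip_sum w t s
    have h5 : f g = τ / 2 * q + s * p := by
      rw [hg, map_add, map_smul, map_smul, smul_eq_mul, smul_eq_mul]
    rw [h5] at h3
    rw [h4] at h3
    exact h3
  have hbR : (2:ℝ) ≤ K := by
    have : (3:ℝ) ≤ K := by exact_mod_cast hb
    linarith
  have fin : ∀ τ : ℝ, |τ| = 1 → τ / 2 * q * (N * ((K:ℝ) - 2)) ≤ (‖P‖ - 1) * ((K:ℝ) - 1) := by
    intro τ hτ
    refine combine (p := p) (w := w t) hε hbR hN0 ht ?_ ?_
    · have := test τ 1 hτ (Or.inl rfl)
      simpa using this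
    · have := test τ (-1) hτ (Or.inr rfl)
      have e1 : τ / 2 * q + -1 * p = τ / 2 * q - p := by ring
      have e2 : N - |w t| - -1 * w t = N - |w t| + w t := by ring
      rw [e1, e2] at this
      exact this
  rcases abs_cases q with ⟨h1, _⟩ | ⟨h1, _⟩
  · rw [h1]; have := fin 1 (by simp); linarith
  · rw [h1]
    have := fin (-1) (by simp)
    linarith

/-- The contribution of a column. -/
lemma col3 {x1 x2 x3 F1 F2 F3 a b : ℝ} (h0 : x1 + x2 + x3 = 0)
    (h2 : |F2 - F1| ≤ a) (h3 : |F3 - F1| ≤ b) :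
    x1 * F1 + x2 * F2 + x3 * F3 ≤ |x2| * a + |x3| * b := by
  have key : ∀ {x y z : ℝ}, |y| ≤ z → x * y ≤ |x| * z := by
    intro x y z h
    calc x * y ≤ |x * y| := le_abs_self _
      _ = |x| * |y| := abs_mul _ _
      _ ≤ |x| * z := mul_le_mul_of_nonneg_left h (abs_nonneg _)
  have e : x1 * F1 + x2 * F2 + x3 * F3 = x2 * (F2 - F1) + x3 * (F3 - F1) := by
    have : x1 = -(x2 + x3) := by linarith
    rw [this]; ring
  rw [e]
  have := key (x := x2) h2
  have := key (x := x3) h3
  linarith

lemma D3_value {f : X3 K →ₗ[ℝ] ℝ} {F : Fin 3 → Fin K → ℝ}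
    (hF : ∀ x : X3 K, f x = ∑ l, ∑ i, (x : Amb 3 (Fin K)) i l * F i l)
    (j k : Fin 3) (l : Fin K) : f (D3 j k l) = F j l - F k l := by
  rw [hF]
  have h1 : ∀ l', ∑ i, ((D3 j k l : X3 K) : Amb 3 (Fin K)) i l' * F i l' =
      if l' = l then F j l' - F k l' else 0 := by
    intro l'
    split_ifs with h
    · have : ∀ i, ((D3 j k l : X3 K) : Amb 3 (Fin K)) i l' * F i l' =
          (if i = j then F i l' else 0) - (if i = k then F i l' else 0) := by
        intro i
        unfold D3
        rw [C3_apply, if_pos h]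
        split_ifs <;> ring
      rw [Finset.sum_congr rfl fun i _ => this i, Finset.sum_sub_distrib]
      simp
    · refine Finset.sum_eq_zero fun i _ => ?_
      unfold D3
      rw [C3_apply, if_neg h, zero_mul]
  rw [Finset.sum_congr rfl fun l' _ => h1 l']
  simp

/-- Every projection of `X3 K` onto a hyperplane has norm at least
`1 + (K - 2) / (5 (K - 1))`. -/
theorem three_bound (hb : 3 ≤ K) (P : X3 K →L[ℝ] X3 K) (v : X3 K) (f : X3 K →ₗ[ℝ] ℝ)
    (hP : ∀ x, P x = x - f x • v) (hfv : f v = 1) (hε : 0 ≤ ‖P‖ - 1) :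
    1 + ((K:ℝ) - 2) / (5 * ((K:ℝ) - 1)) ≤ ‖P‖ := by
  classical
  have hbR : (3:ℝ) ≤ K := by exact_mod_cast hb
  have hb2 : (0:ℝ) < K - 2 := by linarith
  have hb1 : (0:ℝ) < K - 1 := by linarith
  set V : Fin 3 → Fin K → ℝ := fun i l => (v : Amb 3 (Fin K)) i l with hV
  set n : Fin 3 → ℝ := fun i => ∑ l, |V i l| with hn
  have hn0 : ∀ i, 0 ≤ n i := fun i => Finset.sum_nonneg fun _ _ => abs_nonneg _
  obtain ⟨F, hF⟩ := exists_entries f
  set κ : ℝ := 2 * (‖P‖ - 1) * ((K:ℝ) - 1) / ((K:ℝ) - 2) with hκ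
  have hκ0 : 0 ≤ κ := by positivity
  have H : ∀ {i j k : Fin 3}, i ≠ j → i ≠ k → j ≠ k →
      ∀ l : Fin K, 0 < n i → |F j l - F k l| ≤ κ / n i := by
    intro i j k hij hik hjk l hni
    have h1 := elem_bound3 hb P v f hP hε hij hik hjk l
    rw [D3_value hF] at h1
    rw [le_div_iff₀ hni, hκ, le_div_iff₀ hb2, mul_assoc]
    exact h1
  have hmono := Tuple.monotone_sort n
  set σ : Equiv.Perm (Fin 3) := Tuple.sort n with hσ
  set r1 := σ 2 with hr1
  set r2 := σ 1 with hr2
  set r3 := σ 0 with hr3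
  have h12 : n r2 ≤ n r1 := hmono (by decide : (1 : Fin 3) ≤ 2)
  have h23 : n r3 ≤ n r2 := hmono (by decide : (0 : Fin 3) ≤ 1)
  have d12 : r1 ≠ r2 := fun h => absurd (σ.injective h) (by decide)
  have d13 : r1 ≠ r3 := fun h => absurd (σ.injective h) (by decide)
  have d23 : r2 ≠ r3 := fun h => absurd (σ.injective h) (by decide)
  have sum3 : ∀ G : Fin 3 → ℝ, ∑ i, G i = G r1 + G r2 + G r3 := by
    intro G
    rw [← Equiv.sum_comp σ G, Fin.sum_univ_three]
    ring
  have cases3 : ∀ i : Fin 3, i = r1 ∨ i = r2 ∨ i = r3 := by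
    intro i
    obtain ⟨j, rfl⟩ := σ.surjective i
    fin_cases j
    · exact Or.inr (Or.inr rfl)
    · exact Or.inr (Or.inl rfl)
    · exact Or.inl rfl
  have hcol : ∀ l, V r1 l + V r2 l + V r3 l = 0 := by
    intro l
    rw [← sum3 fun i => V i l]
    exact v.2 l
  have hzero : ∀ i, n i = 0 → ∀ l, V i l = 0 := by
    intro i hi l
    have := (Finset.sum_eq_zero_iff_of_nonneg (fun l _ => abs_nonneg (V i l))).1 hi l
      (Finset.mem_univ l)
    exact abs_eq_zero.1 this
  have hn2 : 0 < n r2 := by
    rcases (hn0 r2).lt_or_eq with h | h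
    · exact h
    · exfalso
      have z2 := hzero r2 h.symm
      have z3 := hzero r3 (le_antisymm (h ▸ h23) (hn0 _))
      have z1 : ∀ l, V r1 l = 0 := fun l => by
        have := hcol l
        rw [z2 l, z3 l] at this
        linarith
      have : f v = 0 := by
        rw [hF]
        refine Finset.sum_eq_zero fun l _ => Finset.sum_eq_zero fun i _ => ?_
        have : (v : Amb 3 (Fin K)) i l = 0 := by
          rcases cases3 i with rfl | rfl | rfl
          · exact z1 l
          · exact z2 l
          · exact z3 l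
        rw [this, zero_mul]
      rw [hfv] at this
      exact one_ne_zero this
  have hn1 : 0 < n r1 := lt_of_lt_of_le hn2 h12
  obtain ⟨c2, hc20, hc2, hc2s⟩ : ∃ c2 : ℝ, 0 ≤ c2 ∧
      (∀ l : Fin K, |F r2 l - F r1 l| ≤ κ * c2) ∧
      c2 * n r2 + n r3 / n r2 ≤ 5 / 2 := by
    by_cases hA : n r2 ≤ 2 * n r3
    · have hn3 : 0 < n r3 := by linarith
      refine ⟨1 / n r3, by positivity, ?_, ?_⟩
      · intro l
        have := H (i := r3) (j := r2) (k := r1) d23.symm d13.symm d12.symm l hn3
        rwa [mul_one_div]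
      · have e1 : 1 / n r3 * n r2 + n r3 / n r2 =
            (n r2 * n r2 + n r3 * n r3) / (n r3 * n r2) := by
          field_simp
        rw [e1, div_le_iff₀ (by positivity)]
        nlinarith [mul_nonneg (sub_nonneg.2 h23) (sub_nonneg.2 hA)]
    · push Not at hA
      refine ⟨1 / n r1 + 1 / n r2, by positivity, ?_, ?_⟩
      · intro l
        have t1 := H (i := r1) (j := r2) (k := r3) d12 d13 d23 l hn1
        have t2 := H (i := r2) (j := r3) (k := r1) d23 d12.symm d13.symm l hn2
        calc |F r2 l - F r1 l| = |(F r2 l - F r3 l) + (F r3 l - F r1 l)| := by ring_nf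
          _ ≤ |F r2 l - F r3 l| + |F r3 l - F r1 l| := abs_add_le _ _
          _ ≤ κ / n r1 + κ / n r2 := add_le_add t1 t2
          _ = κ * (1 / n r1 + 1 / n r2) := by ring
      · have e1 : (1 / n r1 + 1 / n r2) * n r2 = n r2 / n r1 + 1 := by
          field_simp
        have e2 : n r2 / n r1 ≤ 1 := (div_le_one hn1).2 h12
        have e3 : n r3 / n r2 ≤ 1 / 2 := by
          rw [div_le_iff₀ hn2]
          linarith
        rw [e1]
        linarith
  have total : 1 ≤ κ * (5 / 2) := by
    calc (1:ℝ) = f v := hfv.symm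
      _ = ∑ l, ∑ i, V i l * F i l := hF v
      _ ≤ ∑ l, (|V r2 l| * (κ * c2) + |V r3 l| * (κ / n r2)) := by
          refine Finset.sum_le_sum fun l _ => ?_
          rw [sum3 fun i => V i l * F i l]
          exact col3 (hcol l) (hc2 l) (H (i := r2) (j := r3) (k := r1) d23 d12.symm d13.symm l hn2)
      _ = n r2 * (κ * c2) + n r3 * (κ / n r2) := by
          rw [Finset.sum_add_distrib, ← Finset.sum_mul, ← Finset.sum_mul]
      _ = κ * (c2 * n r2 + n r3 / n r2) := by ring
      _ ≤ κ * (5 / 2) := mul_le_mul_of_nonneg_left hc2s hκ0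
  have h1 : 2 / 5 ≤ κ := by linarith
  rw [hκ, le_div_iff₀ hb2] at h1
  have h2 : ((K:ℝ) - 2) / (5 * ((K:ℝ) - 1)) ≤ ‖P‖ - 1 := by
    rw [div_le_iff₀ (by positivity)]
    linarith
  linarith

end Pool.Agent.Helper18_Proj
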