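import Pool.Agent.Helper18_Proj.Four
import Pool.Agent.Helper18_Proj.Three

/-!
# Hyperplanes, projections and dimensions
-/

set_option autoImplicit false

namespace Pool.Agent.Helper18_Proj

open Module

/-- A projection onto a hyperplane is `x ↦ x - f x • v` with `f v = 1`. -/
lemma rank_one {X : Type} [NormedAddCommGroup X] [NormedSpace ℝ X] [FiniteDimensional ℝ X]
    (Y : Submodule ℝ X) (hY : finrank ℝ Y + 1 = finrank ℝ X) (P : X →L[ℝ] X)
    (h1 : LinearMap.range (P : X →ₗ[ℝ] X) = Y) (h2 : ∀ y ∈ Y, P y = y) :
    ∃ (v : X) (f : X →ₗ[ℝ] ℝ), f v = 1 ∧ ∀ x, P x = x - f x • v := by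
  have hk : finrank ℝ (LinearMap.ker (P : X →ₗ[ℝ] X)) = 1 := by
    have := LinearMap.finrank_range_add_finrank_ker (P : X →ₗ[ℝ] X)
    rw [h1] at this
    omega
  obtain ⟨w, hw, hspan⟩ := finrank_eq_one_iff'.1 hk
  have hPw : P (w : X) = 0 := by
    have := w.2
    rwa [LinearMap.mem_ker] at this
  have hw' : (w : X) ≠ 0 := fun h => hw (Subtype.ext h)
  have hsub : ∀ x : X, x - P x ∈ LinearMap.ker (P : X →ₗ[ℝ] X) := by
    intro x
    have hx : P x ∈ Y := by rw [← h1]; exact ⟨x, rfl⟩
    rw [LinearMap.mem_ker]
    show P (x - P x) = 0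
    rw [map_sub, h2 _ hx, sub_self]
  -- the coefficient functional on the kernel
  let e : ℝ ≃ₗ[ℝ] LinearMap.ker (P : X →ₗ[ℝ] X) :=
    LinearEquiv.ofBijective (LinearMap.toSpanSingleton ℝ _ w) (by
      constructor
      · rw [← LinearMap.ker_eq_bot, LinearMap.ker_eq_bot']
        intro c hc
        rw [LinearMap.toSpanSingleton_apply] at hc
        rcases smul_eq_zero.1 hc with h | h
        · exact h
        · exact absurd h hw
      · intro y
        obtain ⟨c, hc⟩ := hspan y
        exact ⟨c, by rw [LinearMap.toSpanSingleton_apply]; exact hc⟩)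
  have he : ∀ c : ℝ, ((e c : LinearMap.ker (P : X →ₗ[ℝ] X)) : X) = c • (w : X) := by
    intro c; rfl
  let R : X →ₗ[ℝ] LinearMap.ker (P : X →ₗ[ℝ] X) :=
    LinearMap.codRestrict _ (LinearMap.id - (P : X →ₗ[ℝ] X)) hsub
  have hR : ∀ x, ((R x : LinearMap.ker (P : X →ₗ[ℝ] X)) : X) = x - P x := fun x => rfl
  refine ⟨w, e.symm.toLinearMap ∘ₗ R, ?_, ?_⟩
  · have : R (w : X) = w := by
      apply Subtype.ext
      rw [hR, hPw, sub_zero]
    rw [LinearMap.comp_apply, this]
    show e.symm w = 1
    rw [LinearEquiv.symm_apply_eq]
    apply Subtype.ext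
    rw [he, one_smul]
  · intro x
    have : (e (e.symm (R x)) : X) = x - P x := by
      rw [LinearEquiv.apply_symm_apply, hR]
    rw [he] at this
    show P x = x - (e.symm (R x)) • (w : X)
    rw [this]; abel

/-- The norm of a projection onto a nonzero subspace is at least `1`. -/
lemma one_le_norm {X : Type} [NormedAddCommGroup X] [NormedSpace ℝ X]
    (Y : Submodule ℝ X) (hY : Y ≠ ⊥) (P : X →L[ℝ] X) (h2 : ∀ y ∈ Y, P y = y) : 1 ≤ ‖P‖ := by
  obtain ⟨y, hy, hy0⟩ := Submodule.exists_mem_ne_zero_of_ne_bot hY
  have h := P.le_opNorm y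
  rw [h2 y hy] at h
  have h3 : 0 < ‖y‖ := norm_pos_iff.2 hy0
  by_contra hcon
  push Not at hcon
  nlinarith

lemma finrank_X3 (K : ℕ) : finrank ℝ (X3 K) = 2 * K := by
  have e : X3 K ≃ₗ[ℝ] (Fin 2 × Fin K → ℝ) :=
    { toFun := fun A p => (A : Amb 3 (Fin K)) (Fin.castSucc p.1) p.2
      map_add' := by intro A B; rfl
      map_smul' := by intro c A; rfl
      invFun := fun a => ⟨mk (Fin.snoc (fun (i : Fin 2) l => a (i, l)) fun l => -(a (0, l) + a (1, l))), by
        intro l
        rw [Fin.sum_univ_castSucc, Fin.sum_univ_two]
        simp only [mk_apply, Fin.snoc_castSucc, Fin.snoc_last]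
        ring⟩
      left_inv := by
        intro A
        apply Subtype.ext
        apply ext_entries
        intro i l
        have h := A.2 l
        rw [Fin.sum_univ_castSucc, Fin.sum_univ_two] at h
        simp only [mk_apply]
        refine Fin.lastCases ?_ (fun i => ?_) i
        · simp only [Fin.snoc_last]
          linarith
        · simp only [Fin.snoc_castSucc]
      right_inv := by
        intro a
        funext p
        simp only [mk_apply, Fin.snoc_castSucc] }
  rw [e.finrank_eq, Module.finrank_fintype_fun_eq_card]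
  simp

lemma finrank_X4 (e b : ℕ) : finrank ℝ (X4 e b) = 3 * b + 2 * e := by
  have E : X4 e b ≃ₗ[ℝ] ((Fin 2 × Fin e) ⊕ (Fin 3 × Fin b) → ℝ) :=
    { toFun := fun A => Sum.elim (fun p => (A : Amb 4 (Fin e ⊕ Fin b)) (Fin.castSucc (Fin.castSucc p.1)) (Sum.inl p.2))
        fun p => (A : Amb 4 (Fin e ⊕ Fin b)) (Fin.castSucc p.1) (Sum.inr p.2)
      map_add' := by
        intro A B
        funext p
        rcases p with p | p <;> rfl
      map_smul' := by
        intro c A
        funext p
        rcases p with p | p <;> rfl
      invFun := fun a => ⟨mk (Fin.snoc (α := fun _ => Fin e ⊕ Fin b → ℝ) (Fin.snoc (α := fun _ => Fin e ⊕ Fin b → ℝ)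
          (fun (i : Fin 2) => Sum.elim (fun l => a (Sum.inl (i, l))) fun l => a (Sum.inr (Fin.castSucc i, l)))
          (Sum.elim (fun l => -(a (Sum.inl (0, l)) + a (Sum.inl (1, l)))) fun l => a (Sum.inr (2, l))))
          (Sum.elim (fun _ => 0) fun l => -(a (Sum.inr (0, l)) + a (Sum.inr (1, l)) + a (Sum.inr (2, l))))), by
        constructor
        · intro l
          rw [Fin.sum_univ_castSucc, Fin.sum_univ_castSucc, Fin.sum_univ_two]
          simp only [mk_apply, Fin.snoc_castSucc, Fin.snoc_last]
          rcases l with l | l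
          · simp only [Sum.elim_inl]
            ring
          · simp only [Sum.elim_inr]
            have h0 : Fin.castSucc (0 : Fin 2) = (0 : Fin 3) := rfl
            have h1 : Fin.castSucc (1 : Fin 2) = (1 : Fin 3) := rfl
            rw [h0, h1]
            ring
        · intro l
          have h3 : (3 : Fin 4) = Fin.last 3 := rfl
          simp only [mk_apply]
          rw [h3, Fin.snoc_last]
          rfl⟩
      left_inv := by
        intro A
        apply Subtype.ext
        apply ext_entries
        intro i l
        have h := A.2.1 l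
        have hA := A.2.2
        rw [Fin.sum_univ_castSucc, Fin.sum_univ_castSucc, Fin.sum_univ_two] at h
        simp only [mk_apply]
        refine Fin.lastCases ?_ (fun i => ?_) i
        · simp only [Fin.snoc_last]
          rcases l with l | l
          · simp only [Sum.elim_inl]
            exact (hA l).symm
          · simp only [Sum.elim_inr]
            have e0 : Fin.castSucc (0 : Fin 3) = Fin.castSucc (Fin.castSucc (0 : Fin 2)) := rfl
            have e1 : Fin.castSucc (1 : Fin 3) = Fin.castSucc (Fin.castSucc (1 : Fin 2)) := rfl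
            have e2 : Fin.castSucc (2 : Fin 3) = Fin.castSucc (Fin.last 2) := rfl
            rw [e0, e1, e2]
            linarith
        · simp only [Fin.snoc_castSucc]
          refine Fin.lastCases ?_ (fun i => ?_) i
          · simp only [Fin.snoc_last]
            rcases l with l | l
            · simp only [Sum.elim_inl]
              have := hA l
              have h3 : (3 : Fin 4) = Fin.last 3 := rfl
              rw [h3] at this
              rw [this] at h
              linarith
            · simp only [Sum.elim_inr]
              rfl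
          · simp only [Fin.snoc_castSucc]
            rcases l with l | l
            · simp only [Sum.elim_inl]
            · simp only [Sum.elim_inr]
      right_inv := by
        intro a
        funext p
        rcases p with p | p
        · simp only [mk_apply, Fin.snoc_castSucc, Sum.elim_inl]
        · obtain ⟨i, l⟩ := p
          simp only [mk_apply, Fin.snoc_castSucc, Sum.elim_inr]
          refine Fin.lastCases ?_ (fun i => ?_) i
          · simp only [Fin.snoc_last, Sum.elim_inr]
            rfl
          · simp only [Fin.snoc_castSucc, Sum.elim_inr] }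
  rw [E.finrank_eq, Module.finrank_fintype_fun_eq_card]
  simp
  ring

end Pool.Agent.Helper18_Proj
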